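import Pool.Agent.R410.NG.CBw
import Pool.Agent.H118.CB9.Cb

/-!
# Tate's form of the Birch–Swinnerton-Dyer conjecture for the curves `Y² = a(X) w² + b(X) w + c(X)`

Let `M` be a finitely generated field of characteristic zero and of transcendence degree `d` over `ℚ`,
and let `K = M(w)` be the field of the rational functions in one variable over `M`.  Let
`a, b, c ∈ M[X]`, where `c` is monic of degree `2g + 1`, the degrees of `a` and `b` are less than
`2g + 1`, and `b² - 4ac ≠ 0`.  Let `X` be the hyperelliptic curve `Y² = a(X) w² + b(X) w + c(X)` of genus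
`g` over `K`, and assume that it is smooth.  It has one point at infinity, and it is rational:
`Pic⁰_{X/K}(K)` is the class group of the ring `K[X, Y] / (Y² - a w² - b w - c)`.

We prove Tate's conjecture (Q1) for `X` over `K`.

The algebraic side: the rank of `Pic⁰_{X/K}(K)` is `σ - ε`, where `σ` is the number of the monic
irreducible polynomials `δ ∈ M[X]` such that `a w² + b w + c` is modulo `δ` the square of a nonzero
polynomial `r w + s`, and `ε = 1` if `a` is a nonzero square, and `ε = 0` otherwise.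

The analytic side: let `R` be any integral domain, finitely generated as a ring, with the field of
fractions `K`, let `Y² = G(X)` be an equation of `X` with a monic polynomial `G ∈ R[X]`, and let
`N ∈ R` be nonzero, for example twice the discriminant of `G`, or any multiple of it: then the curve has
good reduction at all the closed points `y` with `N ∉ y`, and `𝒴 = Spec R[1/N]` has dimension
`D = d + 2`.  The Euler product of the `P_{y,1}(q_y^{-s})⁻¹` over the closed points of `𝒴`, which
converges for `Re s > D + 1/2`, continues to an analytic function on `Re s > D`, which is meromorphic at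
`s = D`, and its order at `s = D` is the rank of `Pic⁰_{X/K}(K)`.
-/

set_option autoImplicit false

namespace Pool.Agent.Results.MP_9faec4_nt.ConicBundleCurves

open Polynomial

/-- The polynomial `c(X) + w b(X) + w² a(X)` over `K`. -/
noncomputable def curve {M K : Type} [Field M] [Field K] [Algebra M K] (a b c : M[X]) (w : K) : K[X] :=
  c.map (algebraMap M K) + C w * b.map (algebraMap M K) + C (w ^ 2) * a.map (algebraMap M K)

/-- Modulo `δ`, the polynomial `a w² + b w + c` is the square of a nonzero polynomial `r w + s`. -/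
def IsSplit {M : Type} [Field M] (a b c δ : M[X]) : Prop :=
  ∃ r s : M[X], δ ∣ a - r ^ 2 ∧ δ ∣ b - 2 * r * s ∧ δ ∣ c - s ^ 2 ∧ ¬ (δ ∣ r ∧ δ ∣ s)

/-- The number of the monic irreducible polynomials over which the conic splits. -/
noncomputable def sigma {M : Type} [Field M] (a b c : M[X]) : ℕ :=
  Nat.card {δ : M[X] // δ.Monic ∧ Irreducible δ ∧ IsSplit a b c δ}

open Classical in
/-- The rank: `σ - 1` if `a` is a nonzero square, and `σ` otherwise. -/
noncomputable def rho {M : Type} [Field M] (a b c : M[X]) : ℕ :=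
  sigma a b c - if a ≠ 0 ∧ IsSquare a then 1 else 0

/-- The rank of the class group of the ring `K[X, Y] / (Y² - F(X))`. -/
def ClassGroupHasRank {K : Type} [Field K] (F : K[X]) (n : ℕ) : Prop :=
  ∃ _ : IsDomain (AdjoinRoot (X ^ 2 - C F : K[X][X])),
    Module.rank ℤ (Additive (ClassGroup (AdjoinRoot (X ^ 2 - C F : K[X][X])))) = n

/-- The number of the affine points of the curve `Y² = g(X)` over the field `F`. -/
noncomputable def affinePoints (F : Type) [Field F] (g : F[X]) : ℕ :=
  Nat.card {P : F × F // P.2 ^ 2 = g.eval P.1}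

/-- The trace of the power `n + 1` of the Frobenius on `H¹` of the curve `Y² = g(X)` over the finite
field `κ` with `q` elements, for a monic polynomial `g` of odd degree without multiple roots, in odd
characteristic: `q^(n + 1)` minus the number of the affine points over the extension of `κ` of degree
`n + 1`. -/
noncomputable def trace (κ : Type) [Field κ] [Finite κ] (g : κ[X]) (n : ℕ) : ℝ :=
  haveI : Fact (ringChar κ).Prime := ⟨CharP.char_is_prime κ _⟩
  (Nat.card κ : ℝ) ^ (n + 1) - affinePoints (FiniteField.Extension κ (ringChar κ) (n + 1))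
    (g.map (algebraMap κ (FiniteField.Extension κ (ringChar κ) (n + 1))))

/-- The value `P(q^{-s})⁻¹` for the characteristic polynomial `P(T) = det(1 - T Frob | H¹)` of the curve
`Y² = g(X)` over the finite field `κ` with `q` elements: as usual `P(T)⁻¹ = exp(∑_{n ≥ 1} t_n Tⁿ / n)`,
where `t_n` is the trace of the power `n` of the Frobenius. -/
noncomputable def factor (κ : Type) [Field κ] [Finite κ] (g : κ[X]) (s : ℂ) : ℂ :=
  Complex.exp (∑' n : ℕ, (trace κ g n : ℂ) * ((Nat.card κ : ℂ) ^ (-s)) ^ (n + 1) / ((n : ℂ) + 1))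

open Pool.Agent.TH958.An (resField finite_res)

/-- The factor at the closed point `y` of `Spec R`, with the residue field `R / y`, which is finite. -/
noncomputable def factorAt {R : Type} [CommRing R] [Algebra.FiniteType ℤ R] (G : R[X])
    (y : MaximalSpectrum R) (s : ℂ) : ℂ :=
  factor (R ⧸ y.asIdeal) (G.map (Ideal.Quotient.mk y.asIdeal)) s

theorem trace_eq (κ : Type) [Field κ] [Finite κ] (g : κ[X]) (n : ℕ) :
    trace κ g n = Pool.Agent.H118.CB9.trN κ g n := by
  have : Fact (ringChar κ).Prime := ⟨CharP.char_is_prime κ _⟩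
  unfold trace Pool.Agent.H118.CB9.trN Pool.Agent.R410.NG.trc affinePoints
  rw [FiniteField.natCard_extension]
  push_cast
  rfl

/-- **Tate's conjecture (Q1) for all the hyperelliptic curves `Y² = a(X) w² + b(X) w + c(X)` over
`M(w)`, for an arbitrary finitely generated field `M` of characteristic zero and for every model.** -/
theorem result {M : Type} [Field M] [CharZero M]
    (hM : ∃ S : Finset M, Subfield.closure (S : Set M) = ⊤) {d : ℕ} (hd : Algebra.trdeg ℚ M = d)
    {K : Type} [Field K] [CharZero K] [Algebra M K] {w : K} (hw : Transcendental M w)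
    (hK : IntermediateField.adjoin M {w} = ⊤)
    {g : ℕ} {a b c : M[X]} (hc : c.Monic) (hcd : c.natDegree = 2 * g + 1)
    (ha : a.natDegree < 2 * g + 1) (hb : b.natDegree < 2 * g + 1) (hΔ : b ^ 2 - 4 * a * c ≠ 0)
    (hs : (curve a b c w).Separable) :
    Algebra.trdeg ℚ K = (d + 1 : ℕ) ∧
    (curve a b c w).Monic ∧ (curve a b c w).natDegree = 2 * g + 1 ∧
    -- the algebraic side: the rank of `Pic⁰_{X/K}(K)`
    Finite {δ : M[X] // δ.Monic ∧ Irreducible δ ∧ IsSplit a b c δ} ∧
    (a ≠ 0 ∧ IsSquare a → 1 ≤ sigma a b c) ∧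
    ClassGroupHasRank (curve a b c w) (rho a b c) ∧
    -- the analytic side: the function `Φ₁` for every model
    ∀ (R : Type) [CommRing R] [IsDomain R] [Algebra.FiniteType ℤ R] [Algebra R K]
      [IsFractionRing R K] (G : R[X]), G.Monic → G.map (algebraMap R K) = curve a b c w →
      ∀ N : R, N ≠ 0 → ∃ Φ : ℂ → ℂ,
        (∀ s : ℂ, ((d + 2 : ℕ) : ℝ) + 1 / 2 < s.re →
          HasProd (fun y : {y : MaximalSpectrum R // N ∉ y.asIdeal} => factorAt G y.1 s) (Φ s)) ∧
        DifferentiableOn ℂ Φ {s : ℂ | ((d + 2 : ℕ) : ℝ) < s.re} ∧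
        MeromorphicAt Φ ((d + 2 : ℕ) : ℂ) ∧
        meromorphicOrderAt Φ ((d + 2 : ℕ) : ℂ) = ((rho a b c : ℤ) : WithTop ℤ) := by
  classical
  have hF : curve a b c w = Pool.Agent.R410.CB.fq a b c w := by
    rw [Pool.Agent.R410.CB.fq_eq]
    rfl
  have hodd : Odd c.natDegree := by rw [hcd]; exact ⟨g, rfl⟩
  have hac : a.natDegree < c.natDegree := by rw [hcd]; exact ha
  have hbc : b.natDegree < c.natDegree := by rw [hcd]; exact hb
  have hSp : ∀ δ : M[X], IsSplit a b c δ ↔ ∃ r s : M[X], Pool.Agent.R410.CB.Spl a b c δ r s := by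
    intro δ
    constructor
    · rintro ⟨r, s, h1, h2, h3, h4⟩
      exact ⟨r, s, h1, h2, h3, h4⟩
    · rintro ⟨r, s, h⟩
      exact ⟨r, s, h.ha, h.hb, h.hc, h.ne⟩
  let e : {δ : M[X] // δ.Monic ∧ Irreducible δ ∧ IsSplit a b c δ} ≃ Pool.Agent.R410.NG.SplT a b c :=
    Equiv.subtypeEquivRight fun δ => by rw [hSp δ]
  have hσ : sigma a b c = Nat.card (Pool.Agent.R410.NG.SplT a b c) := Nat.card_congr e
  have hfin : Finite (Pool.Agent.R410.NG.SplT a b c) :=
    Pool.Agent.R410.NG.finite_spl two_ne_zero hΔ
  have hsq : Squarefree (Pool.Agent.R410.CB.fq a b c w) := by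
    rw [← hF]
    exact hs.squarefree
  obtain ⟨h1, h2⟩ := Pool.Agent.R410.NG.rank_cb' hw hK hodd hac hbc hsq hΔ
  have hnd : (curve a b c w).natDegree = 2 * g + 1 := by
    rw [hF, Pool.Agent.R410.CB.deg_fq hac hbc, hcd]
  have hdc : (c.map (algebraMap M K)).natDegree = 2 * g + 1 := by
    rw [natDegree_map, hcd]
  have hmon : (curve a b c w).Monic := by
    rw [Monic, leadingCoeff, hnd]
    unfold curve
    rw [coeff_add, coeff_add, coeff_C_mul, coeff_C_mul, coeff_map, coeff_map, coeff_map,
      coeff_eq_zero_of_natDegree_lt ha, coeff_eq_zero_of_natDegree_lt hb, ← hcd]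
    have : c.coeff c.natDegree = 1 := hc
    rw [this, map_one, map_zero, mul_zero, mul_zero, add_zero, add_zero]
  have hρ : (rho a b c : ℤ) = (Nat.card (Pool.Agent.R410.NG.SplT a b c) : ℤ) -
      if a ≠ 0 ∧ IsSquare a then 1 else 0 := by
    unfold rho
    rw [hσ]
    by_cases h : a ≠ 0 ∧ IsSquare a
    · rw [if_pos h, if_pos h, Nat.cast_sub (h2 h)]
      push_cast
      rfl
    · rw [if_neg h, if_neg h, Nat.sub_zero]
      push_cast
      ring
  refine ⟨Pool.Agent.R410.NG.trdeg_line hd hw hK, hmon, hnd, Finite.of_equiv _ e.symm, ?_, ?_, ?_⟩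
  · rw [hσ]
    exact h2
  · unfold ClassGroupHasRank rho
    rw [hσ, hF]
    exact h1
  · intro R _ _ _ _ _ G hG hGK N hN
    have hgd : G.natDegree = c.natDegree := by
      have h5 : (G.map (algebraMap R K)).natDegree = G.natDegree := hG.natDegree_map _
      rw [← h5, hGK, hnd, hcd]
    obtain ⟨Φ, g1, g2, g3, g4⟩ := Pool.Agent.H118.CB9.euler_cb hM hd hw hK hodd hΔ R hG hgd
      (by rw [← hF]; exact hGK) hN
    have e1 : (((d + 1 : ℕ) : ℂ) + 1) = ((d + 2 : ℕ) : ℂ) := by
      push_cast
      ring
    have e2 : (((d + 1 : ℕ) : ℝ) + 1) = ((d + 2 : ℕ) : ℝ) := by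
      push_cast
      ring
    have e3 : (((d + 1 : ℕ) : ℝ) + 3 / 2) = ((d + 2 : ℕ) : ℝ) + 1 / 2 := by
      push_cast
      ring
    rw [e1] at g3 g4
    rw [e2] at g2
    rw [← hρ] at g4
    refine ⟨Φ, fun s hs => ?_, g2, g3, g4⟩
    rw [← e3] at hs
    have h6 := g1 s hs
    have h7 : (fun y : {y : MaximalSpectrum R // N ∉ y.asIdeal} => factorAt G y.1 s) =
        fun y : {y : MaximalSpectrum R // N ∉ y.asIdeal} =>
          Complex.exp (∑' n : ℕ, (Pool.Agent.H118.CB9.trN (R ⧸ y.1.asIdeal)
            (G.map (Ideal.Quotient.mk y.1.asIdeal)) n : ℂ) *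
            ((Pool.Agent.TH958.An.qy y.1 : ℂ) ^ (-s)) ^ (n + 1) / ((n : ℂ) + 1)) := by
      funext y
      unfold factorAt factor
      congr 1
      refine tsum_congr fun n => ?_
      rw [trace_eq]
      rfl
    rw [h7]
    exact h6

end Pool.Agent.Results.MP_9faec4_nt.ConicBundleCurves
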