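import Pool.Agent.H118.CAB.Eul

/-!
# Tate's form of the Birch–Swinnerton-Dyer conjecture for the linear pencils of curves `Y^m = X^n + ...`

Let `M` be a finitely generated field of characteristic zero and of transcendence degree `d` over `ℚ`,
and let `K = M(w)` be the field of the rational functions in one variable over `M`.  Let `m, n ≥ 1` be
coprime, and let `c, e ∈ M[X, Y]` be polynomials all of whose monomials `X^j Y^i` satisfy
`m j + n i < m n`.  Put `F = Y^m - X^n + c`, and assume that `e ≠ 0` and that `F` and `e` are relatively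
prime in `M[X, Y]`.  Let `X` be the smooth projective curve over `K` with the affine equation
`F + w e = 0`, and assume that this affine curve is smooth, that is, its coordinate ring is a Dedekind
domain.  Such a curve has one point at infinity, and it is rational (the curve is a `C_{m,n}` curve of
genus `(m - 1)(n - 1) / 2`): `Pic⁰_{X/K}(K)` is the class group of the coordinate ring.

We prove Tate's conjecture (Q1) for `X` over `K`.

The algebraic side: the rank of `Pic⁰_{X/K}(K)` is `β - ν`, where `β` is the number of the base points of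
the pencil, that is of the closed points of the intersection `F = e = 0` in the plane over `M`, and `ν` is
the number of the irreducible components of the curve `e = 0` over `M`.

The analytic side: let `R` be any integral domain, finitely generated as a ring, with the field of
fractions `K`, let `G = 0` be an equation of `X` with `G ∈ R[X, Y]`, and let
`N ∈ R` be nonzero and divisible by `m`, for example such that the curve has
good reduction at all the closed points `y` with `N ∉ y`; `𝒴 = Spec R[1/N]` has dimension
`D = d + 2`.  The Euler product of the `P_{y,1}(q_y^{-s})⁻¹` over the closed points of `𝒴`, which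
converges for `Re s > D + 1/2`, continues to an analytic function on `Re s > D`, which is meromorphic at
`s = D`, and its order at `s = D` is the rank of `Pic⁰_{X/K}(K)`.
-/

set_option autoImplicit false

namespace Pool.Agent.Results.MP_9faec4_nt.LinearPencils

open Polynomial

/-- All the monomials `X^j Y^i` of `h` satisfy `m j + n i < m n`. -/
def IsLow {R : Type} [CommRing R] (m n : ℕ) (h : R[X][X]) : Prop :=
  ∀ i j, (h.coeff i).coeff j ≠ 0 → m * j + n * i < m * n

/-- The polynomial `F = Y^m - X^n + c`. -/
noncomputable def pol {R : Type} [CommRing R] (m n : ℕ) (c : R[X][X]) : R[X][X] :=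
  X ^ m - C (X ^ n) + c

/-- The polynomial `h` with its coefficients in the larger ring `S`. -/
noncomputable def ext {R : Type} (S : Type) [CommRing R] [CommRing S] [Algebra R S] (h : R[X][X]) :
    S[X][X] := h.map (mapRingHom (algebraMap R S))

/-- The polynomial `F + w e` over `K`. -/
noncomputable def curve {M K : Type} [Field M] [Field K] [Algebra M K] (m n : ℕ) (c e : M[X][X])
    (w : K) : K[X][X] :=
  ext K (pol m n c) + C (C w) * ext K e

/-- The closed points of the intersection of `F = 0` and `e = 0` in the plane: the prime ideals of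
`M[X, Y]` which contain `F` and `e` (all of them are maximal if `F` and `e` are relatively prime). -/
def BasePoint {M : Type} [Field M] (F e : M[X][X]) : Type :=
  {P : Ideal M[X][X] // P.IsPrime ∧ F ∈ P ∧ e ∈ P}

/-- The irreducible components of the curve `e = 0`. -/
def Component {M : Type} [Field M] (e : M[X][X]) : Type :=
  {P : Ideal M[X][X] // ∃ f, Irreducible f ∧ f ∣ e ∧ P = Ideal.span {f}}

/-- The number of the affine points of the curve `g = 0` over the field `F`. -/
noncomputable def affinePoints (F : Type) [Field F] (g : F[X][X]) : ℕ :=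
  Nat.card {P : F × F // evalEval P.1 P.2 g = 0}

/-- The trace of the power `l + 1` of the Frobenius on `H¹` of the smooth projective curve with the smooth
affine part `g = 0` over the finite field `κ` with `q` elements, and with one point at infinity:
`q^(l + 1)` minus the number of the affine points over the extension of `κ` of degree `l + 1`. -/
noncomputable def trace (κ : Type) [Field κ] [Finite κ] (g : κ[X][X]) (l : ℕ) : ℝ :=
  haveI : Fact (ringChar κ).Prime := ⟨CharP.char_is_prime κ _⟩
  (Nat.card κ : ℝ) ^ (l + 1) - affinePoints (FiniteField.Extension κ (ringChar κ) (l + 1))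
    (g.map (mapRingHom (algebraMap κ (FiniteField.Extension κ (ringChar κ) (l + 1)))))

/-- The value `P(q^{-s})⁻¹` for the characteristic polynomial `P(T) = det(1 - T Frob | H¹)` of the curve
`g = 0` over the finite field `κ` with `q` elements: as usual `P(T)⁻¹ = exp(∑_{l ≥ 1} t_l T^l / l)`,
where `t_l` is the trace of the power `l` of the Frobenius. -/
noncomputable def factor (κ : Type) [Field κ] [Finite κ] (g : κ[X][X]) (s : ℂ) : ℂ :=
  Complex.exp (∑' l : ℕ, (trace κ g l : ℂ) * ((Nat.card κ : ℂ) ^ (-s)) ^ (l + 1) / ((l : ℂ) + 1))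

open Pool.Agent.TH958.An (resField finite_res)

/-- The factor at the closed point `y` of `Spec R`, with the residue field `R / y`, which is finite. -/
noncomputable def factorAt {R : Type} [CommRing R] [Algebra.FiniteType ℤ R] (G : R[X][X])
    (y : MaximalSpectrum R) (s : ℂ) : ℂ :=
  factor (R ⧸ y.asIdeal) (G.map (mapRingHom (Ideal.Quotient.mk y.asIdeal))) s

/-- **Tate's conjecture (Q1) for all the smooth linear pencils of curves `Y^m = X^n + ...` over
`M(w)`, for an arbitrary finitely generated field `M` of characteristic zero and for every model.** -/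
theorem result {M : Type} [Field M] [CharZero M]
    (hM : ∃ S : Finset M, Subfield.closure (S : Set M) = ⊤) {d : ℕ} (hd : Algebra.trdeg ℚ M = d)
    {K : Type} [Field K] [CharZero K] [Algebra M K] {w : K} (hw : Transcendental M w)
    (hK : IntermediateField.adjoin M {w} = ⊤)
    {m n : ℕ} (hm : 0 < m) (hn : 0 < n) (hmn : Nat.Coprime m n) {c e : M[X][X]}
    (hc : IsLow m n c) (he : IsLow m n e) (he0 : e ≠ 0) (hrel : IsRelPrime (pol m n c) e)
    (hs : IsDedekindDomain (AdjoinRoot (curve m n c e w))) :
    Algebra.trdeg ℚ K = (d + 1 : ℕ) ∧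
    -- the algebraic side: the rank of `Pic⁰_{X/K}(K)`
    Finite (BasePoint (pol m n c) e) ∧ Finite (Component e) ∧
    Nat.card (Component e) ≤ Nat.card (BasePoint (pol m n c) e) ∧
    Module.rank ℤ (Additive (ClassGroup (AdjoinRoot (curve m n c e w)))) =
      ((Nat.card (BasePoint (pol m n c) e) - Nat.card (Component e) : ℕ) : Cardinal) ∧
    -- the analytic side: the function `Φ₁` for every model
    ∀ (R : Type) [CommRing R] [IsDomain R] [Algebra.FiniteType ℤ R] [Algebra R K]
      [IsFractionRing R K] (G : R[X][X]), ext K G = curve m n c e w →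
      ∀ N : R, N ≠ 0 → (m : R) ∣ N → ∃ Φ : ℂ → ℂ,
        (∀ s : ℂ, ((d + 2 : ℕ) : ℝ) + 1 / 2 < s.re →
          HasProd (fun y : {y : MaximalSpectrum R // N ∉ y.asIdeal} => factorAt G y.1 s) (Φ s)) ∧
        DifferentiableOn ℂ Φ {s : ℂ | ((d + 2 : ℕ) : ℝ) < s.re} ∧
        MeromorphicAt Φ ((d + 2 : ℕ) : ℂ) ∧
        meromorphicOrderAt Φ ((d + 2 : ℕ) : ℂ) =
          (((Nat.card (BasePoint (pol m n c) e) - Nat.card (Component e) : ℕ) : ℤ) : WithTop ℤ) := by
  classical
  have hcv : curve m n c e w = Pool.Agent.H118.CAB.cab m n (Pool.Agent.H118.CAB.bi M K c +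
      C (C w) * Pool.Agent.H118.CAB.bi M K e) := Pool.Agent.H118.CAB.gen_eq c e w
  have key : ∀ g : K[X][X], Pool.Agent.H118.CAB.cab m n (Pool.Agent.H118.CAB.bi M K c +
      C (C w) * Pool.Agent.H118.CAB.bi M K e) = g → ∀ h : IsDedekindDomain (AdjoinRoot g),
      Nat.card (Component e) ≤ Nat.card (BasePoint (pol m n c) e) ∧
      Module.rank ℤ (Additive (ClassGroup (AdjoinRoot g))) =
        ((Nat.card (BasePoint (pol m n c) e) - Nat.card (Component e) : ℕ) : Cardinal) := by
    rintro _ rfl h
    exact Pool.Agent.H118.CAB.rank_cab hw hK hm hn hmn hc he he0 hrel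
  obtain ⟨h1, h2⟩ := key _ hcv.symm hs
  have hF := (Pool.Agent.H118.CAB.cab_monic hm hc).1
  refine ⟨Pool.Agent.R410.NG.trdeg_line hd hw hK, Pool.Agent.H118.CAB.Bp.finite hF hrel,
    Pool.Agent.H118.CAB.Comp.finite he0, h1, h2, ?_⟩
  intro R _ _ _ _ _ G hG N hN hmN
  obtain ⟨Φ, g1, g2, g3, g4⟩ := Pool.Agent.H118.CAB.euler_cab hM hd hw hK hm hmn hc he he0 hrel R
    (G := G) (hG.trans rfl) hN
  obtain ⟨c', hc', hGc, -⟩ := Pool.Agent.H118.CAB.cab_of_map (φ := algebraMap R K)
    (IsFractionRing.injective R K) (hG.trans hcv) (Pool.Agent.H118.CAB.gen_low hc he w)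
  have e1 : (((d + 1 : ℕ) : ℂ) + 1) = ((d + 2 : ℕ) : ℂ) := by
    push_cast
    ring
  have e2 : (((d + 1 : ℕ) : ℝ) + 1) = ((d + 2 : ℕ) : ℝ) := by
    push_cast
    ring
  have e3 : (((d + 1 : ℕ) : ℝ) + 3 / 2) = ((d + 2 : ℕ) : ℝ) + 1 / 2 := by
    push_cast
    ring
  have hr : ((Nat.card (BasePoint (pol m n c) e) - Nat.card (Component e) : ℕ) : ℤ) =
      (Nat.card (Pool.Agent.H118.CAB.Bp (Pool.Agent.H118.CAB.cab m n c) e) : ℤ) -
        Nat.card (Pool.Agent.H118.CAB.Comp e) := Nat.cast_sub (R := ℤ) h1
  rw [e1] at g3 g4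
  rw [e2] at g2
  refine ⟨Φ, fun s hs => ?_, g2, g3, ?_⟩
  · rw [← e3] at hs
    have h6 := g1 s hs
    have h7 : (fun y : {y : MaximalSpectrum R // N ∉ y.asIdeal} => factorAt G y.1 s) =
        fun y : {y : MaximalSpectrum R // N ∉ y.asIdeal} =>
          Complex.exp (∑' l : ℕ, (Pool.Agent.H118.CAB.trW (Pool.Agent.H118.CAB.wc m n)
            (R ⧸ y.1.asIdeal) (fun j => (Pool.Agent.H118.CAB.enc m n G j).map
              (Ideal.Quotient.mk y.1.asIdeal)) l : ℂ) *
            ((Pool.Agent.TH958.An.qy y.1 : ℂ) ^ (-s)) ^ (l + 1) / ((l : ℂ) + 1)) := by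
      funext y
      have hmF : ((m : ℕ) : R ⧸ y.1.asIdeal) ≠ 0 := by
        obtain ⟨t, ht⟩ := hmN
        intro h0
        apply y.2
        rw [← Ideal.Quotient.eq_zero_iff_mem]
        exact (congrArg (Ideal.Quotient.mk y.1.asIdeal) ht).trans
          (by rw [map_mul, map_natCast, h0, zero_mul])
      unfold factorAt factor
      congr 1
      refine tsum_congr fun l => ?_
      rw [Pool.Agent.H118.CAB.trW_enc hm hc' hGc hmF (Ideal.Quotient.mk y.1.asIdeal) l]
      rfl
    rw [h7]
    exact h6
  · rw [g4, hr]

end Pool.Agent.Results.MP_9faec4_nt.LinearPencils
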